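import Mathlib
import Pool.Agent.Q268.XL.Exl
import Pool.Agent.Q268.XL.Pow
import Pool.Agent.Q268.DL.ExB
import Pool.Agent.Q268.DL.FinA
import Pool.Agent.Q268.DP.Exist

/-!
# Randomly displaced primes: the exact extremes of the numbers of elements of short intervals

Every prime `q` is moved to `q + X q`, the displacements `X q` being independent and uniform on
`{0, …, D q}`.  For regular `D` with `D q ≥ log⁴ q`: if the primes satisfy the asymptotic formula in the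
windows `(n, n + D n]`, then almost surely the extremes of `R(x, y)`, `a log² x ≤ y ≤ x`, for the displaced
primes and the exponents of the exceptional sets are given by the function `f(u) = 1 - u + u log u`, and
conversely.  The question (all windows longer than `x^ε`) is equivalent to this statement for all
`D q = ⌊q^t⌋`, `0 < t < 1`; for `D q = ⌊q / (log q)^B⌋` the statement is true.
-/

set_option autoImplicit false

namespace Pool.Agent.Results.MP_31d0eb_nt.DisplacedExtremes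

open Filter MeasureTheory Topology
open Pool.Agent.Q268.DP (Disp moved)

/-- `R(x, y)` with the set `S` in place of the primes: the number of elements of `S` in `(x, x + y]` divided
by `y / log x` -/
noncomputable def R (S : Set ℕ) (x y : ℝ) : ℝ :=
  ({n : ℕ | n ∈ S ∧ x < n ∧ (n : ℝ) ≤ x + y}.ncard : ℕ) / (y / Real.log x)

/-- the rate function -/
noncomputable def f (u : ℝ) : ℝ := 1 - u + u * Real.log u

/-- The extremes of `R(x, y)`: for all `a > 0` and `u > 1`, if `a f(u) > 1`, then `R(x, y) < u` for all large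
`x` and all `y` with `a log² x ≤ y ≤ x`, and if `a f(u) < 1`, then `R(x, a log² x) > u` for arbitrarily
large `x`; for all `a > 0` and `0 < u < 1`, if `a f(u) > 1`, then `R(x, y) > u` for all large
`x` and all `y` with `a log² x ≤ y ≤ x`, and if `a f(u) < 1`, then `R(x, a log² x) < u` for arbitrarily
large `x`. -/
def Extremes (S : Set ℕ) : Prop := ∀ a : ℝ, 0 < a → ∀ u : ℝ, 0 < u →
  (1 < u → 1 < a * f u → ∀ᶠ x : ℝ in atTop, ∀ y : ℝ, a * Real.log x ^ 2 ≤ y → y ≤ x → R S x y < u) ∧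
  (1 < u → a * f u < 1 → ∃ᶠ x : ℝ in atTop, u < R S x (a * Real.log x ^ 2)) ∧
  (u < 1 → 1 < a * f u → ∀ᶠ x : ℝ in atTop, ∀ y : ℝ, a * Real.log x ^ 2 ≤ y → y ≤ x → u < R S x y) ∧
  (u < 1 → a * f u < 1 → ∃ᶠ x : ℝ in atTop, R S x (a * Real.log x ^ 2) < u)

/-- The exceptional sets: for all `a, u, δ > 0` with `a f(u) < 1` and all large `N` the number of `n ≤ N` with
`R(n, a log² n) ≥ u` (if `u > 1`), respectively with `R(n, a log² n) ≤ u` (if `u < 1`), is between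
`N^(1 - a f(u) - δ)` and `N^(1 - a f(u) + δ)`. -/
def Exceptional (S : Set ℕ) : Prop := ∀ a : ℝ, 0 < a → ∀ u : ℝ, 0 < u → a * f u < 1 → ∀ δ : ℝ, 0 < δ →
  (1 < u → ∀ᶠ N : ℕ in atTop,
    (N : ℝ) ^ (1 - a * f u - δ) ≤ {n : ℕ | n ≤ N ∧ u ≤ R S n (a * Real.log n ^ 2)}.ncard ∧
    ({n : ℕ | n ≤ N ∧ u ≤ R S n (a * Real.log n ^ 2)}.ncard : ℝ) ≤ (N : ℝ) ^ (1 - a * f u + δ)) ∧
  (u < 1 → ∀ᶠ N : ℕ in atTop,
    (N : ℝ) ^ (1 - a * f u - δ) ≤ {n : ℕ | n ≤ N ∧ R S n (a * Real.log n ^ 2) ≤ u}.ncard ∧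
    ({n : ℕ | n ≤ N ∧ R S n (a * Real.log n ^ 2) ≤ u}.ncard : ℝ) ≤ (N : ℝ) ^ (1 - a * f u + δ))

/-- the set of the primes -/
def primes : Set ℕ := {p : ℕ | p.Prime}

/-- the regular displacement bounds -/
def Regular (D : ℕ → ℕ) : Prop :=
  (∀ᶠ q : ℕ in atTop, D q ≤ D (q + 1) ∧ D (q + 1) ≤ D q + 1) ∧
  Tendsto (fun q : ℕ => (D q : ℝ) / q) atTop (𝓝 0) ∧
  Tendsto (fun q : ℕ => (D (q + D q) : ℝ) / D q) atTop (𝓝 1)

/-- the asymptotic formula for the primes in the windows `(n, n + D n]` -/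
def PNT (D : ℕ → ℕ) : Prop := Tendsto (fun n : ℕ => R primes n (D n)) atTop (𝓝 1)

/-- the question: for every `ε > 0` the supremum of `|π(x, H) log x / H - 1|` over `x^ε ≤ H ≤ x` tends to `0`,
where `π(x, H) = π(x + H) - π(x)` -/
def Q1 : Prop := ∀ ε : ℝ, 0 < ε → ∀ δ : ℝ, 0 < δ → ∀ᶠ x : ℝ in atTop, ∀ H : ℝ, x ^ ε ≤ H → H ≤ x →
  |((Nat.primeCounting ⌊x + H⌋₊ : ℝ) - (Nat.primeCounting ⌊x⌋₊ : ℝ)) * Real.log x / H - 1| ≤ δ

theorem regular_iff (D : ℕ → ℕ) : Regular D ↔ Pool.Agent.Q268.DL.Regular D :=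
  ⟨fun h => ⟨h.1, h.2.1, h.2.2⟩, fun h => ⟨h.step, h.small, h.ratio⟩⟩

theorem pnt_iff (D : ℕ → ℕ) : PNT D ↔ Tendsto (Pool.Agent.Q268.DL.RD D) atTop (𝓝 1) := by
  have h : (fun n : ℕ => R primes n (D n)) = Pool.Agent.Q268.DL.RD D := by
    funext n
    have h1 : R primes n (D n) = (Pool.Agent.Q268.DL.cR primes n (D n) : ℝ) / ((D n : ℝ) / Real.log n) := rfl
    rw [h1, Pool.Agent.Q268.DL.cR_nat]
    rfl
  unfold PNT
  rw [h]

theorem R_Ra (S : Set ℕ) (a x : ℝ) : R S x (a * Real.log x ^ 2) = Pool.Agent.Q268.XL.Ra S a x := by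
  have h1 : R S x (a * Real.log x ^ 2) =
    (Pool.Agent.Q268.DL.cR S x (a * Real.log x ^ 2) : ℝ) / (a * Real.log x ^ 2 / Real.log x) := rfl
  rw [h1]
  unfold Pool.Agent.Q268.XL.Ra
  congr 1
  rcases eq_or_ne (Real.log x) 0 with h | h
  · simp [h]
  · field_simp

theorem extremes_of {S : Set ℕ} (h1 : ∀ a : ℝ, 0 < a → Pool.Agent.Q268.XL.Law S a)
    (h2 : ∀ a : ℝ, 0 < a → Pool.Agent.Q268.XL.LU S a) : Extremes S := by
  intro a ha u hu
  refine ⟨(h2 a ha u hu).1, ?_, (h2 a ha u hu).2, ?_⟩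
  · intro e1 e2
    refine ((h1 a ha u hu).2.1 e1 e2).mono fun x hx => ?_
    rw [R_Ra]
    exact hx
  · intro e1 e2
    refine ((h1 a ha u hu).2.2.2 e1 e2).mono fun x hx => ?_
    rw [R_Ra]
    exact hx

theorem law_of_extremes {S : Set ℕ} (h : Extremes S) (a : ℝ) (ha : 0 < a) : Pool.Agent.Q268.XL.Law S a := by
  have hbig : ∀ᶠ x : ℝ in atTop, a * Real.log x ^ 2 ≤ x := by
    have h1 := Pool.Agent.Q268.DL.loggrow a 2 one_pos
    filter_upwards [h1] with x hx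
    have e0 : (Real.log x : ℝ) ^ (2 : ℝ) = Real.log x ^ 2 := by norm_cast
    rw [e0, one_mul] at hx
    exact hx
  intro u hu
  obtain ⟨k1, k2, k3, k4⟩ := h a ha u hu
  refine ⟨?_, ?_, ?_, ?_⟩
  · intro e1 e2
    filter_upwards [k1 e1 e2, hbig] with x h1 h2
    rw [← R_Ra]
    exact h1 _ le_rfl h2
  · intro e1 e2
    refine (k2 e1 e2).mono fun x hx => ?_
    rw [← R_Ra]
    exact hx
  · intro e1 e2
    filter_upwards [k3 e1 e2, hbig] with x h1 h2
    rw [← R_Ra]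
    exact h1 _ le_rfl h2
  · intro e1 e2
    refine (k4 e1 e2).mono fun x hx => ?_
    rw [← R_Ra]
    exact hx

theorem cnt_eq (B : Set ℕ) (N : ℕ) : Pool.Agent.Q268.XL.cnt B N = {n : ℕ | n ≤ N ∧ n ∈ B}.ncard := by
  classical
  unfold Pool.Agent.Q268.XL.cnt
  rw [← Set.ncard_coe_finset]
  congr 1
  ext n
  simp only [Finset.coe_filter, Finset.mem_range, Set.mem_ofPred_eq, Nat.lt_succ_iff]

theorem exceptional_of {S : Set ℕ} (h : ∀ a : ℝ, 0 < a → Pool.Agent.Q268.XL.EX S a) : Exceptional S := by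
  intro a ha u hu hau δ hδ
  obtain ⟨k1, k2⟩ := h a ha u hu hau δ hδ
  have e1 : ∀ N : ℕ, Pool.Agent.Q268.XL.cnt {n : ℕ | u ≤ Pool.Agent.Q268.XL.Ra S a n} N =
      {n : ℕ | n ≤ N ∧ u ≤ R S n (a * Real.log n ^ 2)}.ncard := by
    intro N
    rw [cnt_eq]
    simp only [R_Ra, Set.mem_ofPred_eq]
  have e2 : ∀ N : ℕ, Pool.Agent.Q268.XL.cnt {n : ℕ | Pool.Agent.Q268.XL.Ra S a n ≤ u} N =
      {n : ℕ | n ≤ N ∧ R S n (a * Real.log n ^ 2) ≤ u}.ncard := by
    intro N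
    rw [cnt_eq]
    simp only [R_Ra, Set.mem_ofPred_eq]
  simp only [e1] at k1
  simp only [e2] at k2
  exact ⟨k1, k2⟩

/-- almost surely, the formula for the primes in the windows `(n, n + D n]` is equivalent to the extremes, and
implies the exponents of the exceptional sets -/
theorem main {D : ℕ → ℕ} (hR : Regular D) (h4 : ∀ᶠ q : ℕ in atTop, Real.log q ^ 4 ≤ D q)
    {Ω : Type} [MeasurableSpace Ω] {μ : Measure Ω} {X : ℕ → Ω → ℕ} (hX : Disp μ X D) :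
    ∀ᵐ ω ∂μ, (PNT D → Extremes (moved Nat.Prime X ω) ∧ Exceptional (moved Nat.Prime X ω)) ∧
      (Extremes (moved Nat.Prime X ω) → PNT D) := by
  have hD := (regular_iff D).1 hR
  have hA := Pool.Agent.Q268.XL.law_iff hX hD h4
  by_cases hP : PNT D
  · have hP' := (pnt_iff D).1 hP
    have hL : Tendsto (fun q : ℕ => (D q : ℝ) / Real.log q) atTop atTop := by
      rw [tendsto_atTop]
      intro K
      filter_upwards [h4, Pool.Agent.Q268.XL.hlogN'.eventually_ge_atTop (max 1 K)] with q h1 h2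
      have h4 : 1 ≤ Real.log q := (le_max_left _ _).trans h2
      have h5 : K ≤ Real.log q := (le_max_right _ _).trans h2
      rw [le_div_iff₀ (by linarith)]
      refine le_trans ?_ h1
      calc K * Real.log q ≤ Real.log q * Real.log q := by gcongr
        _ = Real.log q ^ 2 := by ring
        _ ≤ Real.log q ^ 4 := pow_le_pow_right₀ h4 (by norm_num)
    have hdn := Pool.Agent.Q268.DL.dn_of_PF hD hL hP'
    filter_upwards [hA, Pool.Agent.Q268.XL.iu_ae hX hdn, Pool.Agent.Q268.XL.ie_ae hX hD.small h4 hdn]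
      with ω h1 h2 h3
    exact ⟨fun _ => ⟨extremes_of (h1.2 hP') (fun a ha => Pool.Agent.Q268.XL.lu_of_iu h2 ha),
      exceptional_of fun a ha => Pool.Agent.Q268.XL.ex_of_ie h3 ha⟩, fun _ => hP⟩
  · filter_upwards [hA] with ω h1
    exact ⟨fun h => absurd h hP, fun h => (pnt_iff D).2 (h1.1 (law_of_extremes h))⟩

theorem R_prime {x y : ℝ} (hx : 0 ≤ x) (hy : 0 ≤ y) :
    R primes x y = ((Nat.primeCounting ⌊x + y⌋₊ : ℝ) - (Nat.primeCounting ⌊x⌋₊ : ℝ)) * Real.log x / y := by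
  have h1 := Pool.Agent.Q268.DL.cR_eq primes hx hy
  unfold R
  have h2 : ({n : ℕ | n ∈ primes ∧ x < n ∧ (n : ℝ) ≤ x + y}.ncard : ℝ) =
      Pool.Agent.Q268.DL.cR primes x y := rfl
  rw [h2, h1, div_div_eq_mul_div]
  congr 3
  · exact Pool.Agent.Q268.DL.ct_PP _
  · exact Pool.Agent.Q268.DL.ct_PP _

theorem Q1_QP : Q1 ↔ Pool.Agent.Q268.XL.QP := by
  unfold Q1 Pool.Agent.Q268.XL.QP
  refine forall_congr' fun ε => forall_congr' fun _ => forall_congr' fun δ => forall_congr' fun _ => ?_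
  have key : ∀ x : ℝ, 0 ≤ x → ((∀ H : ℝ, x ^ ε ≤ H → H ≤ x →
      |((Nat.primeCounting ⌊x + H⌋₊ : ℝ) - (Nat.primeCounting ⌊x⌋₊ : ℝ)) * Real.log x / H - 1| ≤ δ) ↔
      ∀ y : ℝ, x ^ ε ≤ y → y ≤ x →
        |(Pool.Agent.Q268.DL.cR Pool.Agent.Q268.DL.PP x y : ℝ) / (y / Real.log x) - 1| ≤ δ) := by
    intro x hx
    refine forall_congr' fun y => forall_congr' fun hy => forall_congr' fun _ => ?_
    have hy0 : 0 ≤ y := (Real.rpow_nonneg hx ε).trans hy
    rw [← R_prime hx hy0]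
    exact Iff.rfl
  constructor
  · intro h
    filter_upwards [h, eventually_ge_atTop 0] with x h1 h2
    exact (key x h2).1 h1
  · intro h
    filter_upwards [h, eventually_ge_atTop 0] with x h1 h2
    exact (key x h2).2 h1

theorem Q1_iff : Q1 ↔ ∀ t : ℝ, 0 < t → t < 1 → PNT (fun q => ⌊(q : ℝ) ^ t⌋₊) := by
  rw [Q1_QP, Pool.Agent.Q268.XL.QP_iff]
  refine forall_congr' fun t => forall_congr' fun _ => forall_congr' fun _ => ?_
  exact (pnt_iff _).symm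

theorem pow_admissible {t : ℝ} (h0 : 0 < t) (h1 : t < 1) : Regular (fun q => ⌊(q : ℝ) ^ t⌋₊) ∧
    ∀ᶠ q : ℕ in atTop, Real.log q ^ 4 ≤ (⌊(q : ℝ) ^ t⌋₊ : ℝ) :=
  ⟨(regular_iff _).2 (Pool.Agent.Q268.DL.Dθ_regular h0 h1), Pool.Agent.Q268.DL.Dθ_pow h0 4⟩

theorem disp_prob {Ω : Type} [MeasurableSpace Ω] {μ : Measure Ω} {X : ℕ → Ω → ℕ} {D : ℕ → ℕ}
    (hX : Disp μ X D) : IsProbabilityMeasure μ := hX.indep.isProbabilityMeasure

/-- `Q1` implies the formula for all regular `D q ≥ q^t` -/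
theorem pnt_of_Q1 (h : Q1) {D : ℕ → ℕ} (hR : Regular D) {t : ℝ} (ht : 0 < t)
    (hD : ∀ᶠ q : ℕ in atTop, (q : ℝ) ^ t ≤ D q) : PNT D := by
  unfold PNT
  rw [Metric.tendsto_atTop]
  intro δ hδ
  have h1 := (tendsto_natCast_atTop_atTop (R := ℝ)).eventually (h t ht (δ / 2) (by positivity))
  have h2 : ∀ᶠ n : ℕ in atTop, |R primes n (D n) - 1| ≤ δ / 2 := by
    filter_upwards [h1, hD, hR.2.1.eventually_le_const (show (0 : ℝ) < 1 by norm_num), eventually_gt_atTop 0]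
      with n e1 e2 e3 e4
    have hn : (0 : ℝ) < n := by exact_mod_cast e4
    rw [div_le_one hn] at e3
    have e5 := e1 (D n) e2 e3
    rwa [← R_prime hn.le (Nat.cast_nonneg _)] at e5
  obtain ⟨M, hM⟩ := eventually_atTop.1 h2
  refine ⟨M, fun n hn => ?_⟩
  rw [Real.dist_eq]
  have := hM n hn
  linarith

theorem pow_log {D : ℕ → ℕ} {t : ℝ} (ht : 0 < t) (hD : ∀ᶠ q : ℕ in atTop, (q : ℝ) ^ t ≤ D q) :
    ∀ᶠ q : ℕ in atTop, Real.log q ^ 4 ≤ D q := by
  have h1 := Pool.Agent.Q268.DL.Dθ_pow ht 4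
  filter_upwards [hD, h1] with q h2 h3
  refine h3.trans (le_trans ?_ h2)
  exact Nat.floor_le (by positivity)

theorem result :
    -- families of displacements exist
    (∀ D : ℕ → ℕ, ∃ μ : Measure (ℕ → ℕ), Disp μ (fun q ω => ω q) D) ∧
    -- the displaced primes, reduced to one asymptotic formula for the primes
    (∀ D : ℕ → ℕ, Regular D → (∀ᶠ q : ℕ in atTop, Real.log q ^ 4 ≤ D q) →
      ∀ (Ω : Type) [MeasurableSpace Ω] (μ : Measure Ω) (X : ℕ → Ω → ℕ), Disp μ X D →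
        ∀ᵐ ω ∂μ, (PNT D → Extremes (moved Nat.Prime X ω) ∧ Exceptional (moved Nat.Prime X ω)) ∧
          (Extremes (moved Nat.Prime X ω) → PNT D)) ∧
    -- `D q = ⌊q / (log q)^B⌋`
    (∀ B : ℝ, 0 < B → ∀ (Ω : Type) [MeasurableSpace Ω] (μ : Measure Ω) (X : ℕ → Ω → ℕ),
      Disp μ X (fun q => ⌊(q : ℝ) / Real.log q ^ B⌋₊) → ∀ᵐ ω ∂μ,
        Extremes (moved Nat.Prime X ω) ∧ Exceptional (moved Nat.Prime X ω)) ∧
    -- the question
    (Q1 ↔ ∀ t : ℝ, 0 < t → t < 1 →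
      ∀ (Ω : Type) [MeasurableSpace Ω] (μ : Measure Ω) (X : ℕ → Ω → ℕ), Disp μ X (fun q => ⌊(q : ℝ) ^ t⌋₊) →
        ∀ᵐ ω ∂μ, Extremes (moved Nat.Prime X ω)) ∧
    (Q1 → ∀ D : ℕ → ℕ, Regular D → ∀ t : ℝ, 0 < t → (∀ᶠ q : ℕ in atTop, (q : ℝ) ^ t ≤ D q) →
      ∀ (Ω : Type) [MeasurableSpace Ω] (μ : Measure Ω) (X : ℕ → Ω → ℕ), Disp μ X D →
        ∀ᵐ ω ∂μ, Extremes (moved Nat.Prime X ω) ∧ Exceptional (moved Nat.Prime X ω)) := by
  refine ⟨Pool.Agent.Q268.DP.exists_disp, ?_, ?_, ?_, ?_⟩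
  · intro D hR h4 Ω _ μ X hX
    exact main hR h4 hX
  · intro B hB Ω _ μ X hX
    have hR : Regular (Pool.Agent.Q268.DP.DB B) := (regular_iff _).2 (Pool.Agent.Q268.DL.DB_regular hB)
    have hP : PNT (Pool.Agent.Q268.DP.DB B) := (pnt_iff _).2 (Pool.Agent.Q268.DL.DB_PF hB)
    filter_upwards [main hR (Pool.Agent.Q268.DL.DB_pow B 4) hX] with ω hω
    exact hω.1 hP
  · rw [Q1_iff]
    constructor
    · intro h t ht0 ht1 Ω _ μ X hX
      filter_upwards [main (pow_admissible ht0 ht1).1 (pow_admissible ht0 ht1).2 hX] with ω hω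
      exact (hω.1 (h t ht0 ht1)).1
    · intro h t ht0 ht1
      obtain ⟨μ, hμ⟩ := Pool.Agent.Q268.DP.exists_disp (fun q => ⌊(q : ℝ) ^ t⌋₊)
      have := disp_prob hμ
      have h1 := h t ht0 ht1 (ℕ → ℕ) μ _ hμ
      obtain ⟨ω, h2, h3⟩ := (h1.and (main (pow_admissible ht0 ht1).1 (pow_admissible ht0 ht1).2 hμ)).exists
      exact h3.2 h2
  · intro h D hR t ht hD Ω _ μ X hX
    filter_upwards [main hR (pow_log ht hD) hX] with ω hω
    exact hω.1 (pnt_of_Q1 h hR ht hD)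

end Pool.Agent.Results.MP_31d0eb_nt.DisplacedExtremes
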