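import Pool.Agent.Q117.SI.All2

/-!
# MP_31d0eb_nt: almost primes with prescribed surroundings in every short interval
-/

set_option autoImplicit false

namespace Pool.Agent.Results.MP_31d0eb_nt.EverySurroundings

open Finset
open Pool.Agent.Q117.LF (Ro)

/-- the function of Rankin and Erdős: `log X · log log X · log log log log X / (log log log X) ^ 2` -/
noncomputable def R (X : ℝ) : ℝ :=
  Real.log X * Real.log (Real.log X) * Real.log (Real.log (Real.log (Real.log X))) / Real.log (Real.log (Real.log X)) ^ 2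

/-- for every prime `p` there is a translate of `E` without multiples of `p` -/
def Admissible (E : Finset ℤ) : Prop := ∀ p : ℕ, p.Prime → ∃ r : ℤ, ∀ e ∈ E, ¬ (p : ℤ) ∣ r + e

open Classical in
/-- the `n ∈ (B, B + H]` such that `n + a` is a product of at most `r` primes, all `≥ w`, no `n + e`, `e ∈ E`, has a prime factor `≤ z`, and every other integer at distance `≤ D` from `n` has a prime factor `≤ y` -/
noncomputable def Surrounded (E : Finset ℤ) (a : ℤ) (r : ℕ) (w z D y : ℝ) (B H : ℕ) : Finset ℕ :=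
  (Ioc B (B + H)).filter (fun n : ℕ => ((n : ℤ) + a).natAbs.primeFactorsList.length ≤ r ∧ (∀ p : ℕ, p.Prime → (p : ℤ) ∣ (n : ℤ) + a → w ≤ p) ∧
    (∀ e ∈ E, Ro z ((n : ℤ) + e)) ∧ ∀ s : ℤ, |(s : ℝ)| ≤ D → s ∉ E → ¬ Ro y ((n : ℤ) + s))

theorem result : ∀ (k r : ℕ) (ε δ : ℝ), 1 ≤ k → 1 ≤ r → ε ≤ 1 → 25 < 3 * (8 * r - 1) * ε → 0 < δ → ∃ t : ℕ, 1 ≤ t ∧ ∃ c : ℝ, 0 < c ∧ ∃ X₀ : ℝ, ∀ X : ℝ, X₀ ≤ X →
    ∀ E : Finset ℤ, E.card ≤ k → (∀ e ∈ E, |(e : ℝ)| ≤ c * R X) → Admissible E → ∀ a ∈ E, ∀ B H : ℕ, X ^ ε ≤ H → (B : ℝ) + H ≤ X →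
      (H : ℝ) * X ^ (-δ) ≤ ((Surrounded E a r (X ^ (ε / 6)) (X ^ (1 / (t : ℝ))) (c * R X) (Real.log X) B H).card : ℝ) :=
  Pool.Agent.Q117.SI.rsiC

end Pool.Agent.Results.MP_31d0eb_nt.EverySurroundings
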