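import Pool.Agent.Q273.CI.Main

set_option autoImplicit false

/-!
# Primes in all short intervals around every term of a sequence

There are absolute constants `C > 1` and `c₁, c₂ > 0` with the following property. Let `x_n → ∞` be
any sequence of positive numbers with `x_{n+1} ≥ x_n ^ C` for all large `n`. In every interval the
set of the real numbers `α` such that for ALL large `n` the integer part `p` of `α x_n` is a prime
and ALL the intervals `[p, p + H]` and `[p - H, p]`, `log p ≤ H ≤ p`, contain at least
`c₁ H / log p` and at most `c₂ H / log p` primes, has Hausdorff dimension one.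
-/

open Filter Topology

namespace Pool.Agent.Results.MP_31d0eb_nt.EveryTermAllScales

/-- The number of primes in the interval `[x, y]` of real numbers. -/
noncomputable def primesIn (x y : ℝ) : ℕ := ((Finset.Icc ⌈x⌉₊ ⌊y⌋₊).filter Nat.Prime).card

/-- `p` is a prime number and every interval `[p, p + H]` and `[p - H, p]` with `log p ≤ H ≤ p`
contains at least `c₁ H / log p` and at most `c₂ H / log p` primes. -/
def AllScales (c₁ c₂ : ℝ) (p : ℕ) : Prop :=
  p.Prime ∧ ∀ H : ℝ, Real.log p ≤ H → H ≤ p →
    c₁ * H / Real.log p ≤ primesIn p (p + H) ∧ c₁ * H / Real.log p ≤ primesIn (p - H) p ∧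
      (primesIn p (p + H) : ℝ) ≤ c₂ * H / Real.log p ∧ (primesIn (p - H) p : ℝ) ≤ c₂ * H / Real.log p

/-- **Primes in all short intervals around every term.** There are `C > 1` and `c₁, c₂ > 0` such that
for all positive `x_n → ∞` with `x_{n+1} ≥ x_n ^ C` for large `n`, and all `0 < u < v`, the set of the
`α` in `(u, v)` for which, for all large `n`, `p = ⌊α x_n⌋` is a prime with between `c₁ H / log p` and
`c₂ H / log p` primes in `[p, p + H]` and in `[p - H, p]` for all real `H` with `log p ≤ H ≤ p`, has
Hausdorff dimension one. -/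
theorem result : ∃ C c₁ c₂ : ℝ, 1 < C ∧ 0 < c₁ ∧ 0 < c₂ ∧
    ∀ x : ℕ → ℝ, (∀ n, 0 < x n) → Tendsto x atTop atTop →
      (∀ᶠ n in atTop, (x n) ^ C ≤ x (n + 1)) → ∀ u v : ℝ, 0 < u → u < v →
        dimH {α : ℝ | u < α ∧ α < v ∧ ∀ᶠ n in atTop, AllScales c₁ c₂ ⌊α * x n⌋₊} = 1 :=
  Pool.Agent.Q273.CI.every_term_all_scales

end Pool.Agent.Results.MP_31d0eb_nt.EveryTermAllScales
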