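import Pool.Agent.Results.MP_711652_nt.ThinTranslates
import Pool.Agent.Helper923.PPS.BT
import Pool.Agent.Q152.SamplingMean

/-!
# The asymptotic formula for the primes in the union of few short intervals, at almost all places

A law of large numbers: the starting file `MP_711652_nt.ThinTranslates` says that for an arbitrary dense set `A` and
almost all members `b` of a thin family the mean over `a ∈ A` of the number of the primes in `(a + b, a + b + y]` is
as expected. This is applied to the level sets of the weights `a ↦ exp (± λ ∑ X_i(a))`, where `X_i(a)` is the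
normalised number of the primes in `(a + b i, a + b i + y]` (bounded by the Brun-Titchmarsh inequality if
`y ≥ N ^ θ`): exponential moments along the tuple `b 1, b 2, ...` (`Pool.Agent.Q152.SamplingMean`).
-/

set_option autoImplicit false

namespace Pool.Agent.Results.MP_31d0eb_nt.SampledAsymptotic

open Finset Pool.Agent.Q152.SamplingMean
open Pool.Agent.Results.MP_711652_nt
open Pool.Agent.Results.MP_711652_nt.ThinTranslates (energy num primesIn Good)

open Classical in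
/-- The number of the tuples `v` of length `r` of elements of `{1, ..., x}` with the property `E`. -/
noncomputable def tuples (x r : ℕ) (E : (Fin r → ℕ) → Prop) : ℝ :=
  (((Fintype.piFinset fun _ : Fin r => Icc 1 x).filter E).card : ℝ)

/-- The total number of the primes in the `r` intervals `(a + b i, a + b i + y]`. -/
def total (r : ℕ) (b : Fin r → ℕ) (y a : ℕ) : ℕ := ∑ i, primesIn (a + b i) y

open Classical in
/-- The law of large numbers for the shifts `b i`, `i < r`: for every integer `y` with `N ^ θ ≤ y ≤ N`, all but at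
most `(4 exp (-c ε² r) + 1 / (log N) ^ C) N` of the integers `a` in `[1, N]` are such that the total number of the
primes in the `r` intervals `(a + b i, a + b i + y]` is `r y / log N` up to a relative error of at most `ε`; and if
`r ≥ ((C + 3) / (c ε²)) log log N` this holds for all but at most `N / (log N) ^ C` integers `a` in `[1, N]` for all
these `y` simultaneously. -/
def Law (c θ ε : ℝ) (C N r : ℕ) (b : Fin r → ℕ) : Prop :=
  (∀ y : ℕ, (N : ℝ) ^ θ ≤ y → y ≤ N →
    (((Icc 1 N).filter fun a =>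
      ε * (r * y) < |(total r b y a : ℝ) * Real.log N - r * y|).card : ℝ) ≤
      (4 * Real.exp (-(c * ε ^ 2 * r)) + 1 / Real.log N ^ C) * N) ∧
  ((C + 3) / (c * ε ^ 2) * Real.log (Real.log N) ≤ r →
    (((Icc 1 N).filter fun a => ∃ y : ℕ, (N : ℝ) ^ θ ≤ y ∧ y ≤ N ∧
      ε * (r * y) < |(total r b y a : ℝ) * Real.log N - r * y|).card : ℝ) ≤ N / Real.log N ^ C)

lemma primesIn_mono {n y z : ℕ} (h : y ≤ z) : primesIn n y ≤ primesIn n z := by
  unfold primesIn
  apply card_le_card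
  apply filter_subset_filter
  apply Ioc_subset_Ioc_right
  omega

lemma primesIn_le : ∃ C : ℝ, 1 ≤ C ∧ ∀ n y : ℕ, 2 ≤ y →
    (primesIn n y : ℝ) ≤ C * y / Real.log y := by
  obtain ⟨C, hC, h⟩ := Pool.Agent.Helper923.PPS.brun_titchmarsh
  refine ⟨C, hC, fun n y hy => ?_⟩
  refine le_trans ?_ (h (n + 1) 1 y hy (Or.inl rfl))
  apply Nat.cast_le.2
  unfold primesIn
  apply card_le_card_of_injOn fun q => q - (n + 1)
  · intro q hq
    rw [mem_coe, mem_filter, mem_Ioc] at hq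
    rw [mem_coe, mem_filter, mem_range]
    have h1 : n + 1 + (q - (n + 1)) * 1 = q := by omega
    have h2 : q - (n + 1) < y := by omega
    refine ⟨h2, ?_⟩
    change (n + 1 + (q - (n + 1)) * 1).Prime
    rw [h1]
    exact hq.2
  · intro q hq q' hq' h'
    rw [mem_coe, mem_filter, mem_Ioc] at hq hq'
    simp only at h'
    omega

lemma core (C U κ K N x : ℕ) (θ ε CB : ℝ) (hθ : 0 < θ) (hθ1 : θ ≤ 1) (hε : 0 < ε) (hε1 : ε ≤ 1 / 2)
    (hCB : 1 ≤ CB) (hBT : ∀ n y : ℕ, 2 ≤ y → (primesIn n y : ℝ) ≤ CB * y / Real.log y) (s : ℕ → ℤ)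
    (hL8 : 8 ≤ Real.log N) (hLκ : κ * Real.log (Real.log N) + 1 ≤ Real.log N)
    (hLε : 10 / ε + 4 ≤ Real.log N) (hLC : 6 * (2 * CB / θ) ≤ Real.log N)
    (hN2 : 2 ≤ (N : ℝ) ^ (θ / 2)) (hNε : 5 / ε ≤ (N : ℝ) ^ θ) (hNK : Real.log N ^ K ≤ (N : ℝ) ^ (θ / 2))
    (H : ∀ A : Finset ℕ, A ⊆ Icc 1 N → N / Real.log N ^ (C + 2 * κ + 6) ≤ (A.card : ℝ) →
      num x (fun m => 0 < s m ∧ s m ≤ N ∧ ¬ Good (ε / 5) K N A (s m).toNat) ≤
        x / Real.log N ^ (U + (C + 2 * κ + 6) + 4))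
    (r : ℕ) (hr : (r : ℝ) ≤ κ * Real.log (Real.log N)) :
    tuples x r (fun v => (∀ i, 0 < s (v i) ∧ s (v i) ≤ N) ∧
      ¬ Law (1 / (25 * (2 * CB / θ) ^ 2)) θ ε C N r (fun i => (s (v i)).toNat)) ≤
        x ^ r / Real.log N ^ U := by
  classical
  obtain ⟨e, he⟩ : ∃ e, e = ε / 5 := ⟨_, rfl⟩
  have he0 : 0 < e := by rw [he]; positivity
  have he1 : e ≤ 1 / 10 := by rw [he]; linarith
  have hεe : ε = 5 * e := by rw [he]; ring
  obtain ⟨L, hL⟩ : ∃ L, L = Real.log N := ⟨_, rfl⟩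
  obtain ⟨C₁, hC₁⟩ : ∃ C₁, C₁ = 2 * CB / θ := ⟨_, rfl⟩
  obtain ⟨D, hD⟩ : ∃ D, D = C + 2 * κ + 6 := ⟨_, rfl⟩
  rw [← hL] at hL8 hLκ hLε hLC hNK H hr
  rw [← hC₁] at hLC ⊢
  rw [← hD, ← he] at H
  have hC2 : 2 ≤ C₁ := by
    rw [hC₁, le_div_iff₀ hθ]
    nlinarith
  have hL0 : 0 < L := by linarith
  have hL1 : 1 ≤ L := by linarith
  have hr0 : (0 : ℝ) ≤ r := Nat.cast_nonneg r
  have hrL : (r : ℝ) + 1 ≤ L := by linarith
  have hN0 : N ≠ 0 := by
    rintro rfl
    rw [Nat.cast_zero, Real.log_zero] at hL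
    linarith
  have hNr : (0 : ℝ) < N := by exact_mod_cast Nat.pos_of_ne_zero hN0
  have hN1 : (1 : ℝ) ≤ N := by exact_mod_cast Nat.pos_of_ne_zero hN0
  have hNθ : (N : ℝ) ^ θ = (N : ℝ) ^ (θ / 2) * (N : ℝ) ^ (θ / 2) := by
    rw [← Real.rpow_add hNr]
    congr 1
    ring
  -- the scales
  obtain ⟨J, hJ⟩ : ∃ J : ℕ, J = ⌊2 * L / e⌋₊ + 2 := ⟨_, rfl⟩
  obtain ⟨Y, hY⟩ : ∃ Y : Finset ℕ, Y = insert N (((range J).image
    fun j : ℕ => (⌊(1 + e) ^ j⌋₊ : ℕ)).filter
    fun g : ℕ => (N : ℝ) ^ (θ / 2) ≤ (g : ℝ) ∧ g ≤ N) := ⟨_, rfl⟩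
  have hYcard : (Y.card : ℝ) ≤ L * L := by
    have h1 : Y.card ≤ J + 1 := by
      rw [hY]
      refine (card_insert_le _ _).trans ?_
      have := (card_filter_le ((range J).image fun j : ℕ => (⌊(1 + e) ^ j⌋₊ : ℕ))
        (fun g : ℕ => (N : ℝ) ^ (θ / 2) ≤ (g : ℝ) ∧ g ≤ N)).trans
        (card_image_le.trans (card_range J).le)
      omega
    have h2 : (J : ℝ) ≤ 2 * L / e + 2 := by
      rw [hJ]
      push_cast
      have := Nat.floor_le (show 0 ≤ 2 * L / e by positivity)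
      linarith
    have h3 : 2 * L / e + 3 ≤ L * L := by
      have h4 : 2 * L / e = L * (2 / e) := by ring
      have h5 : 2 / e + 4 ≤ L := by
        rw [he]
        have : 2 / (ε / 5) = 10 / ε := by field_simp; norm_num
        rw [this]
        exact hLε
      rw [h4]
      nlinarith
    have h6 : (Y.card : ℝ) ≤ (J : ℝ) + 1 := by exact_mod_cast h1
    linarith
  have hYprop : ∀ g ∈ Y, (N : ℝ) ^ (θ / 2) ≤ g ∧ g ≤ N := by
    intro g hg
    rw [hY, mem_insert, mem_filter] at hg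
    rcases hg with rfl | ⟨_, h⟩
    · refine ⟨?_, le_rfl⟩
      calc (g : ℝ) ^ (θ / 2) ≤ (g : ℝ) ^ (1 : ℝ) :=
            Real.rpow_le_rpow_of_exponent_le hN1 (by linarith)
        _ = g := Real.rpow_one _
    · exact h
  -- the functions
  obtain ⟨F, hF⟩ : ∃ F : ℕ → ℕ → ℕ → ℝ, F = fun g m a =>
      (primesIn (a + (s m).toNat) g : ℝ) * L / g := ⟨_, rfl⟩
  have hFb : ∀ g ∈ Y, ∀ m a, 0 ≤ F g m a ∧ F g m a ≤ C₁ := by
    intro g hg m a
    obtain ⟨hg1, hg2⟩ := hYprop g hg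
    have hg3 : (2 : ℝ) ≤ g := hN2.trans hg1
    have hg4 : 2 ≤ g := by exact_mod_cast hg3
    have hg0 : (0 : ℝ) < g := by linarith
    rw [hF]
    refine ⟨by positivity, ?_⟩
    have h1 := hBT (a + (s m).toNat) g hg4
    have h2 : θ / 2 * L ≤ Real.log g := by
      rw [hL, ← Real.log_rpow hNr]
      exact Real.log_le_log (by positivity) hg1
    have h3 : 0 < θ / 2 * L := by positivity
    have h4 : (primesIn (a + (s m).toNat) g : ℝ) ≤ CB * g / (θ / 2 * L) := by
      refine h1.trans ?_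
      apply div_le_div_of_nonneg_left (by positivity) h3 h2
    change (primesIn (a + (s m).toNat) g : ℝ) * L / g ≤ C₁
    rw [div_le_iff₀ hg0]
    calc (primesIn (a + (s m).toNat) g : ℝ) * L ≤ CB * g / (θ / 2 * L) * L := by gcongr
      _ = C₁ * g := by
        rw [hC₁]
        field_simp
  obtain ⟨ok, hok⟩ : ∃ ok : ℕ → Prop, ok = fun m => 0 < s m ∧ s m ≤ N := ⟨_, rfl⟩
  obtain ⟨τ, hτ⟩ : ∃ τ : ℝ, τ = N / L ^ D := ⟨_, rfl⟩
  obtain ⟨η, hη⟩ : ∃ η : ℝ, η = 1 / L ^ (U + D + 4) := ⟨_, rfl⟩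
  obtain ⟨Lv, hLv⟩ : ∃ Lv : ℕ, Lv = ⌈L ^ D⌉₊ := ⟨_, rfl⟩
  have hLD1 : 1 ≤ L ^ D := one_le_pow₀ hL1
  have hLv1 : L ^ D ≤ Lv := by rw [hLv]; exact Nat.le_ceil _
  have hLv2 : (Lv : ℝ) ≤ 2 * L ^ D := by
    have := Nat.ceil_lt_add_one (show (0 : ℝ) ≤ L ^ D by positivity)
    rw [hLv]
    linarith
  have hLv0 : 0 < Lv := by
    have : (0 : ℝ) < Lv := by linarith
    exact_mod_cast this
  have hτ0 : 0 ≤ τ := by rw [hτ]; positivity
  have hη0 : 0 ≤ η := by rw [hη]; positivity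
  have hX : ((Icc 1 N).card : ℝ) = N := by rw [Nat.card_Icc, Nat.add_sub_cancel]
  have hM : ((Icc 1 x).card : ℝ) = x := by rw [Nat.card_Icc, Nat.add_sub_cancel]
  have hH : ∀ g ∈ Y, ∀ A ⊆ Icc 1 N, τ ≤ (A.card : ℝ) →
      (((Icc 1 x).filter fun m => ok m ∧ BadFor (F g) e A m).card : ℝ) ≤
        η * ((Icc 1 x).card : ℝ) := by
    intro g hg A hA hAτ
    obtain ⟨hg1, hg2⟩ := hYprop g hg
    have hg3 : (2 : ℝ) ≤ g := hN2.trans hg1
    have hg0 : (0 : ℝ) < g := by linarith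
    have h1 := H A hA (by rw [← hτ]; exact hAτ)
    have h2 : x / L ^ (U + D + 4) = η * ((Icc 1 x).card : ℝ) := by
      rw [hM, hη]
      ring
    rw [h2] at h1
    refine le_trans ?_ h1
    unfold num
    apply Nat.cast_le.2
    apply card_le_card
    intro m hm
    simp only [mem_filter] at hm ⊢
    have hm3 := hm.2.1
    rw [hok] at hm3
    refine ⟨hm.1, hm3.1, hm3.2, fun hgd => ?_⟩
    have h3 := (hgd g (by rw [← hL]; exact hNK.trans hg1) hg2).1
    have h4 := hm.2.2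
    unfold BadFor at h4
    rw [hF] at h4
    rw [← hL] at h3
    have h5 : ∑ a ∈ A, (primesIn (a + (s m).toNat) g : ℝ) * L / g - A.card =
        ((∑ a ∈ A, (primesIn (a + (s m).toNat) g : ℝ)) * L - A.card * g) / g := by
      rw [sub_div, sum_mul, sum_div, mul_div_assoc, div_self hg0.ne', mul_one]
    simp only at h4
    rw [h5, abs_div, abs_of_pos hg0, lt_div_iff₀ hg0] at h4
    nlinarith
  obtain ⟨lam, hlam⟩ : ∃ lam, lam = e / C₁ ^ 2 := ⟨_, rfl⟩
  have hlam0 : 0 ≤ lam := by rw [hlam]; positivity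
  have hlamC : lam * C₁ ≤ 1 := by
    rw [hlam, div_mul_eq_mul_div, div_le_one (by positivity)]
    nlinarith
  have hbad := fun g (hg : g ∈ Y) (l : ℝ) (hl : |l| = lam) => bad_card (F := F g) (ok := ok)
    (X := Icc 1 N) (M := Icc 1 x) hLv0 (by linarith) he0.le hτ0 hη0 hlamC hlam0
    (fun m _ _ a _ => hFb g hg m a) (hH g hg) l hl r r le_rfl
  -- the number of the exceptional tuples
  have hcount : tuples x r (fun v => (∀ i, 0 < s (v i) ∧ s (v i) ≤ N) ∧
      ∃ g ∈ Y, v ∈ Bad (F g) ok (Icc 1 N) (Icc 1 x) C₁ e τ lam lam Lv r r ∪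
        Bad (F g) ok (Icc 1 N) (Icc 1 x) C₁ e τ lam (-lam) Lv r r) ≤ x ^ r / L ^ U := by
    have hsub : ((Fintype.piFinset fun _ : Fin r => Icc 1 x).filter
        fun v => (∀ i, 0 < s (v i) ∧ s (v i) ≤ N) ∧
      ∃ g ∈ Y, v ∈ Bad (F g) ok (Icc 1 N) (Icc 1 x) C₁ e τ lam lam Lv r r ∪
        Bad (F g) ok (Icc 1 N) (Icc 1 x) C₁ e τ lam (-lam) Lv r r) ⊆
        Y.biUnion fun g => Bad (F g) ok (Icc 1 N) (Icc 1 x) C₁ e τ lam lam Lv r r ∪
        Bad (F g) ok (Icc 1 N) (Icc 1 x) C₁ e τ lam (-lam) Lv r r := by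
      intro v hv
      obtain ⟨_, _, g, hg, h⟩ := mem_filter.1 hv
      exact mem_biUnion.2 ⟨g, hg, h⟩
    have h1 : tuples x r (fun v => (∀ i, 0 < s (v i) ∧ s (v i) ≤ N) ∧
      ∃ g ∈ Y, v ∈ Bad (F g) ok (Icc 1 N) (Icc 1 x) C₁ e τ lam lam Lv r r ∪
        Bad (F g) ok (Icc 1 N) (Icc 1 x) C₁ e τ lam (-lam) Lv r r) ≤
        ∑ _g ∈ Y, 2 * (r * (Lv * η) * (x : ℝ) ^ r) := by
      unfold tuples
      refine (Nat.cast_le.2 ?_).trans ((Nat.cast_le.2 ((card_le_card hsub).trans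
        card_biUnion_le)).trans ?_)
      · apply le_of_eq
        congr 1
        apply filter_congr_decidable
      rw [Nat.cast_sum]
      apply sum_le_sum
      intro g hg
      have h2 := hbad g hg lam (abs_of_nonneg hlam0)
      have h3 := hbad g hg (-lam) (by rw [abs_neg, abs_of_nonneg hlam0])
      rw [hM] at h2 h3
      have h4 : ((Bad (F g) ok (Icc 1 N) (Icc 1 x) C₁ e τ lam lam Lv r r ∪
        Bad (F g) ok (Icc 1 N) (Icc 1 x) C₁ e τ lam (-lam) Lv r r).card : ℝ) ≤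
          ((Bad (F g) ok (Icc 1 N) (Icc 1 x) C₁ e τ lam lam Lv r r).card : ℝ) +
          ((Bad (F g) ok (Icc 1 N) (Icc 1 x) C₁ e τ lam (-lam) Lv r r).card : ℝ) := by
        exact_mod_cast card_union_le _ _
      linarith
    refine h1.trans ?_
    rw [sum_const, nsmul_eq_mul, hη]
    have hx : (0 : ℝ) ≤ (x : ℝ) ^ r := by positivity
    calc (Y.card : ℝ) * (2 * (r * (Lv * (1 / L ^ (U + D + 4))) * (x : ℝ) ^ r))
        ≤ (L * L) * (2 * (L * (2 * L ^ D * (1 / L ^ (U + D + 4))) * (x : ℝ) ^ r)) := by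
          gcongr
          linarith
      _ = 4 / L * ((x : ℝ) ^ r / L ^ U) := by
          rw [show U + D + 4 = U + D + 1 + 3 by ring, pow_add L (U + D + 1) 3, pow_succ, pow_add L U D]
          field_simp
          ring
      _ ≤ 1 * ((x : ℝ) ^ r / L ^ U) := by
          apply mul_le_mul_of_nonneg_right _ (by positivity)
          rw [div_le_one hL0]
          linarith
      _ = x ^ r / L ^ U := one_mul _
  refine le_trans ?_ (hcount.trans (by rw [← hL]))
  unfold tuples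
  apply Nat.cast_le.2
  apply card_le_card
  intro v hv
  simp only [mem_filter] at hv ⊢
  refine ⟨hv.1, hv.2.1, ?_⟩
  by_contra hcon
  push Not at hcon
  apply hv.2.2
  have hvM : ∀ i, v i ∈ Icc 1 x := Fintype.mem_piFinset.1 hv.1
  have hvok : ∀ i, ok (v i) := fun i => by rw [hok]; exact hv.2.1 i
  -- the tuple is not exceptional
  have hexp : Real.exp r ≤ L ^ κ := by
    have h1 := Real.exp_le_exp.2 hr
    rw [Real.exp_nat_mul, Real.exp_log hL0] at h1
    exact h1
  have htail : 2 * (Real.exp r * (r * err C₁ τ N Lv r)) ≤ N / L ^ (C + 3) := by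
    have h1 : err C₁ τ N Lv r ≤ L ^ κ * C₁ * (3 * (N / L ^ D)) := by
      unfold err
      have h2 : 2 * (N : ℝ) / Lv ≤ 2 * (N / L ^ D) := by
        rw [mul_div_assoc]
        gcongr
      have h3 : τ + 2 * (N : ℝ) / Lv ≤ 3 * (N / L ^ D) := by rw [hτ]; linarith
      have h4 : 0 ≤ τ + 2 * (N : ℝ) / Lv := by positivity
      gcongr
    calc 2 * (Real.exp r * (r * err C₁ τ N Lv r))
        ≤ 2 * (L ^ κ * (L * (L ^ κ * C₁ * (3 * (N / L ^ D))))) := by
          have : (r : ℝ) ≤ L := by linarith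
          have h5 : 0 ≤ err C₁ τ N Lv r := by unfold err; positivity
          gcongr
      _ = 6 * C₁ / L ^ 2 * (N / L ^ (C + 3)) := by
          rw [hD, show C + 2 * κ + 6 = (C + 3) + (κ + κ) + 3 by ring, pow_add, pow_add, pow_add L κ κ]
          field_simp
          ring
      _ ≤ 1 * (N / L ^ (C + 3)) := by
          apply mul_le_mul_of_nonneg_right _ (by positivity)
          rw [div_le_one (by positivity)]
          nlinarith
      _ = N / L ^ (C + 3) := one_mul _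
  have hoff : ∀ g ∈ Y, ((off (F g) (Icc 1 N) (3 * e) r v).card : ℝ) ≤
      2 * (Real.exp (-(1 / (25 * C₁ ^ 2) * ε ^ 2 * r)) * N) + N / L ^ (C + 3) := by
    intro g hg
    have h1 := hcon g hg
    rw [mem_union, not_or] at h1
    have h2 := off_card (F := F g) (X := Icc 1 N) (M := Icc 1 x) hC2 he0 (by linarith) hτ0 hlam
      hvM hvok h1.1 h1.2
    have h3 : (Icc 1 N).card = N := by rw [Nat.card_Icc, Nat.add_sub_cancel]
    rw [h3] at h2
    have h4 : e ^ 2 / C₁ ^ 2 * r = 1 / (25 * C₁ ^ 2) * ε ^ 2 * r := by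
      rw [hεe]
      field_simp
      norm_num
    rw [h4] at h2
    linarith
  -- reduction to the scales
  have hred : ∀ y : ℕ, (N : ℝ) ^ θ ≤ y → y ≤ N → ∃ g ∈ Y, ∃ g' ∈ Y, ∀ a ∈ Icc 1 N,
      ε * (r * y) < |(total r (fun i => (s (v i)).toNat) y a : ℝ) * L - r * y| →
      a ∈ off (F g) (Icc 1 N) (3 * e) r v ∪ off (F g') (Icc 1 N) (3 * e) r v := by
    intro y hy1 hy2
    have hy0 : (1 : ℝ) ≤ y := by
      have h1 : 1 ≤ (N : ℝ) ^ θ := by rw [hNθ]; nlinarith
      linarith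
    have hey : 1 ≤ e * y := by
      have h1 := hNε.trans hy1
      rw [he, div_mul_eq_mul_div, le_div_iff₀ (by norm_num)]
      rw [div_le_iff₀ hε] at h1
      linarith
    obtain ⟨j, hj1, hj2⟩ := exists_nat_pow_near hy0 (by linarith : 1 < 1 + e)
    have hpos : (0 : ℝ) < (1 + e) ^ j := by positivity
    have hjJ : j + 1 < J := by
      have h1 : (j : ℝ) * Real.log (1 + e) ≤ L := by
        rw [← Real.log_pow, hL]
        apply Real.log_le_log hpos
        exact hj1.trans (by exact_mod_cast hy2)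
      have h2 : e / 2 ≤ Real.log (1 + e) := by
        have h3 := Real.one_sub_inv_le_log_of_pos (show 0 < 1 + e by linarith)
        have h4 : (1 + e)⁻¹ ≤ 1 - e / 2 := by
          rw [inv_le_comm₀ (by linarith) (by linarith), inv_eq_one_div, div_le_iff₀ (by linarith)]
          nlinarith
        linarith
      have h5 : (j : ℝ) ≤ 2 * L / e := by
        rw [le_div_iff₀ he0]
        nlinarith [Nat.cast_nonneg (α := ℝ) j]
      have h6 : j ≤ ⌊2 * L / e⌋₊ := Nat.le_floor h5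
      omega
    -- the lower point
    obtain ⟨g, hg⟩ : ∃ g : ℕ, g = ⌊(1 + e) ^ j⌋₊ := ⟨_, rfl⟩
    have hg1 : g ≤ y := by
      rw [hg]
      exact Nat.floor_le_of_le hj1
    have hg2 : (1 - 2 * e) * y ≤ g := by
      have h1 : (1 + e) ^ j < g + 1 := by rw [hg]; exact Nat.lt_floor_add_one _
      have h2 : (y : ℝ) < (1 + e) * (1 + e) ^ j := by rw [pow_succ] at hj2; linarith
      have h3 : (1 - e) * y ≤ (1 + e) ^ j := by nlinarith
      linarith
    have hg3 : (N : ℝ) ^ (θ / 2) ≤ g := by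
      have h1 : (N : ℝ) ^ θ / 2 ≤ g := by nlinarith
      rw [hNθ] at h1
      nlinarith
    have hgY : g ∈ Y := by
      rw [hY, mem_insert, mem_filter, mem_image]
      exact Or.inr ⟨⟨j, mem_range.2 (by omega), hg.symm⟩, hg3, hg1.trans hy2⟩
    -- the upper point
    obtain ⟨g', hg'⟩ : ∃ g' : ℕ, g' = min N ⌊(1 + e) ^ (j + 1)⌋₊ := ⟨_, rfl⟩
    have hg'1 : y ≤ g' := by
      rw [hg']
      exact le_min hy2 (Nat.le_floor hj2.le)
    have hg'2 : (g' : ℝ) ≤ (1 + e) * y := by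
      have h1 : (g' : ℝ) ≤ (1 + e) ^ (j + 1) := by
        have h2 : g' ≤ ⌊(1 + e) ^ (j + 1)⌋₊ := by rw [hg']; exact min_le_right _ _
        have h3 : (g' : ℝ) ≤ (⌊(1 + e) ^ (j + 1)⌋₊ : ℝ) := by exact_mod_cast h2
        exact h3.trans (Nat.floor_le (by positivity))
      rw [pow_succ] at h1
      nlinarith
    have hg'Y : g' ∈ Y := by
      rw [hY, mem_insert, mem_filter, mem_image]
      rcases le_total N ⌊(1 + e) ^ (j + 1)⌋₊ with h | h
      · left
        rw [hg', min_eq_left h]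
      · right
        refine ⟨⟨j + 1, mem_range.2 hjJ, by rw [hg', min_eq_right h]⟩, ?_, ?_⟩
        · refine hg3.trans ?_
          exact_mod_cast hg1.trans hg'1
        · rw [hg']
          exact min_le_left _ _
    refine ⟨g, hgY, g', hg'Y, fun a ha hlt => ?_⟩
    by_contra hc
    rw [mem_union, not_or] at hc
    have hgpos : (0 : ℝ) < g := by
      have : 0 < (N : ℝ) ^ (θ / 2) := by positivity
      linarith
    have hg'pos : (0 : ℝ) < g' := by
      have : (g : ℝ) ≤ g' := by exact_mod_cast hg1.trans hg'1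
      linarith
    have hS : ∀ z : ℕ, (0 : ℝ) < z → S (F z) r v a * z =
        (total r (fun i => (s (v i)).toNat) z a : ℝ) * L := by
      intro z hz
      unfold S total
      rw [hF]
      push_cast
      rw [sum_mul, sum_mul]
      apply sum_congr rfl
      intro i _
      field_simp
    have h1 : |S (F g) r v a - r| ≤ 3 * e * r := by
      by_contra h
      exact hc.1 (mem_filter.2 ⟨ha, not_le.1 h⟩)
    have h2 : |S (F g') r v a - r| ≤ 3 * e * r := by
      by_contra h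
      exact hc.2 (mem_filter.2 ⟨ha, not_le.1 h⟩)
    have hm1 : (total r (fun i => (s (v i)).toNat) g a : ℝ) ≤
        total r (fun i => (s (v i)).toNat) y a := by
      apply Nat.cast_le.2
      exact sum_le_sum fun i _ => primesIn_mono hg1
    have hm2 : (total r (fun i => (s (v i)).toNat) y a : ℝ) ≤
        total r (fun i => (s (v i)).toNat) g' a := by
      apply Nat.cast_le.2
      exact sum_le_sum fun i _ => primesIn_mono hg'1
    rw [abs_le] at h1 h2
    have h3 : (1 - 3 * e) * r * ((1 - 2 * e) * y) ≤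
        (total r (fun i => (s (v i)).toNat) y a : ℝ) * L := by
      calc (1 - 3 * e) * r * ((1 - 2 * e) * y) ≤ (1 - 3 * e) * r * g := by
            apply mul_le_mul_of_nonneg_left hg2
            have : 0 ≤ 1 - 3 * e := by linarith
            positivity
        _ ≤ S (F g) r v a * g := by
            apply mul_le_mul_of_nonneg_right _ hgpos.le
            linarith
        _ = (total r (fun i => (s (v i)).toNat) g a : ℝ) * L := hS g hgpos
        _ ≤ _ := by gcongr
    have h4 : (total r (fun i => (s (v i)).toNat) y a : ℝ) * L ≤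
        (1 + 3 * e) * r * ((1 + e) * y) := by
      calc (total r (fun i => (s (v i)).toNat) y a : ℝ) * L
          ≤ (total r (fun i => (s (v i)).toNat) g' a : ℝ) * L := by gcongr
        _ = S (F g') r v a * g' := (hS g' hg'pos).symm
        _ ≤ (1 + 3 * e) * r * g' := by
            apply mul_le_mul_of_nonneg_right _ hg'pos.le
            linarith
        _ ≤ _ := by gcongr
    have hry : 0 ≤ (r : ℝ) * y := by positivity
    rw [hεe] at hlt
    rcases lt_abs.1 hlt with h | h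
    · have h5 : (1 + 3 * e) * (1 + e) ≤ 1 + 5 * e := by nlinarith
      have h6 := mul_le_mul_of_nonneg_right h5 hry
      nlinarith
    · have h5 : 1 - 5 * e ≤ (1 - 3 * e) * (1 - 2 * e) := by nlinarith
      have h6 := mul_le_mul_of_nonneg_right h5 hry
      nlinarith
  have hpw : N / L ^ (C + 3) ≤ (N : ℝ) / L ^ C / (2 * L) := by
    rw [pow_add, div_div]
    apply div_le_div_of_nonneg_left hNr.le (by positivity)
    have : 2 * L ≤ L ^ 3 := by nlinarith
    have h2 : 0 < L ^ C := by positivity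
    nlinarith
  have hLCpos : 0 < L ^ C := by positivity
  refine ⟨fun y hy1 hy2 => ?_, fun hrbig => ?_⟩
  · rw [← hL]
    obtain ⟨g, hg, g', hg', h⟩ := hred y hy1 hy2
    have h1 := hoff g hg
    have h2 := hoff g' hg'
    refine (Nat.cast_le.2 ((card_le_card (t := off (F g) (Icc 1 N) (3 * e) r v ∪
      off (F g') (Icc 1 N) (3 * e) r v) fun a ha => h a (mem_filter.1 ha).1
        (mem_filter.1 ha).2).trans (card_union_le _ _))).trans ?_
    push_cast
    have h3 : (N : ℝ) / L ^ C / (2 * L) ≤ N / L ^ C / 2 := by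
      apply div_le_div_of_nonneg_left (by positivity) (by norm_num)
      linarith
    calc ((off (F g) (Icc 1 N) (3 * e) r v).card : ℝ) + (off (F g') (Icc 1 N) (3 * e) r v).card
        ≤ 4 * Real.exp (-(1 / (25 * C₁ ^ 2) * ε ^ 2 * r)) * N + N / L ^ C := by linarith
      _ = (4 * Real.exp (-(1 / (25 * C₁ ^ 2) * ε ^ 2 * r)) + 1 / L ^ C) * N := by ring
  · rw [← hL] at hrbig ⊢
    have hsub : ((Icc 1 N).filter fun a => ∃ y : ℕ, (N : ℝ) ^ θ ≤ y ∧ y ≤ N ∧
        ε * (r * y) < |(total r (fun i => (s (v i)).toNat) y a : ℝ) * L - r * y|) ⊆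
        Y.biUnion fun g => off (F g) (Icc 1 N) (3 * e) r v := by
      intro a ha
      obtain ⟨ha1, y, hy1, hy2, h⟩ := mem_filter.1 ha
      obtain ⟨g, hg, g', hg', h'⟩ := hred y hy1 hy2
      rcases mem_union.1 (h' a ha1 h) with h'' | h''
      · exact mem_biUnion.2 ⟨g, hg, h''⟩
      · exact mem_biUnion.2 ⟨g', hg', h''⟩
    have hexp2 : Real.exp (-(1 / (25 * C₁ ^ 2) * ε ^ 2 * r)) ≤ 1 / L ^ (C + 3) := by
      have h1 : ((C + 3 : ℕ) : ℝ) * Real.log L ≤ 1 / (25 * C₁ ^ 2) * ε ^ 2 * r := by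
        have h2 : 0 < 1 / (25 * C₁ ^ 2) * ε ^ 2 := by positivity
        have h3 := mul_le_mul_of_nonneg_left hrbig h2.le
        have h4 : 1 / (25 * C₁ ^ 2) * ε ^ 2 * ((C + 3) / (1 / (25 * C₁ ^ 2) * ε ^ 2) * Real.log L) =
            (C + 3) * Real.log L := by
          field_simp
        rw [h4] at h3
        push_cast
        exact h3
      rw [Real.exp_neg, ← one_div]
      apply one_div_le_one_div_of_le (by positivity)
      calc L ^ (C + 3) = Real.exp (((C + 3 : ℕ) : ℝ) * Real.log L) := by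
            rw [Real.exp_nat_mul, Real.exp_log hL0]
        _ ≤ _ := Real.exp_le_exp.2 h1
    have hoff2 : ∀ g ∈ Y, ((off (F g) (Icc 1 N) (3 * e) r v).card : ℝ) ≤ 3 * (N / L ^ (C + 3)) := by
      intro g hg
      have h1 := hoff g hg
      have h2 := mul_le_mul_of_nonneg_right hexp2 hNr.le
      have h3 : 1 / L ^ (C + 3) * N = N / L ^ (C + 3) := by ring
      rw [h3] at h2
      linarith
    have h1 : (((Icc 1 N).filter fun a => ∃ y : ℕ, (N : ℝ) ^ θ ≤ y ∧ y ≤ N ∧
        ε * (r * y) < |(total r (fun i => (s (v i)).toNat) y a : ℝ) * L - r * y|).card : ℝ) ≤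
        ∑ _g ∈ Y, 3 * (N / L ^ (C + 3)) := by
      refine (Nat.cast_le.2 ((card_le_card hsub).trans card_biUnion_le)).trans ?_
      rw [Nat.cast_sum]
      exact sum_le_sum hoff2
    refine h1.trans ?_
    rw [sum_const, nsmul_eq_mul]
    have h2 : 0 ≤ 3 * (N / L ^ (C + 3)) := by positivity
    calc (Y.card : ℝ) * (3 * (N / L ^ (C + 3))) ≤ L * L * (3 * (N / L ^ (C + 3))) :=
          mul_le_mul_of_nonneg_right hYcard h2
      _ = 3 / L * (N / L ^ C) := by
        rw [pow_add]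
        field_simp
      _ ≤ 1 * (N / L ^ C) := by
        apply mul_le_mul_of_nonneg_right _ (by positivity)
        rw [div_le_one hL0]
        linarith
      _ = N / L ^ C := one_mul _

lemma ev_large (κ K : ℕ) (θ V : ℝ) (hθ : 0 < θ) : ∃ N₀ : ℕ, ∀ N : ℕ, N₀ ≤ N →
    V ≤ Real.log N ∧ κ * Real.log (Real.log N) + 1 ≤ Real.log N ∧ V ≤ (N : ℝ) ^ (θ / 2) ∧
      V ≤ (N : ℝ) ^ θ ∧ Real.log N ^ K ≤ (N : ℝ) ^ (θ / 2) := by
  have hcast : Filter.Tendsto (fun N : ℕ => (N : ℝ)) Filter.atTop Filter.atTop :=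
    tendsto_natCast_atTop_atTop
  have h1 : Filter.Tendsto (fun N : ℕ => Real.log N) Filter.atTop Filter.atTop :=
    Real.tendsto_log_atTop.comp hcast
  have h2 : ∀ᶠ L : ℝ in Filter.atTop, κ * Real.log L + 1 ≤ L := by
    have h3 := Real.isLittleO_log_id_atTop.bound (c := 1 / (2 * (κ + 1))) (by positivity)
    filter_upwards [h3, Filter.eventually_ge_atTop (2 : ℝ)] with L hL1 hL2
    rw [Real.norm_eq_abs, Real.norm_eq_abs, id, abs_of_nonneg (Real.log_nonneg (by linarith)),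
      abs_of_nonneg (by linarith : (0 : ℝ) ≤ L)] at hL1
    have h4 : (κ : ℝ) * Real.log L ≤ L / 2 := by
      have h5 : (κ : ℝ) * Real.log L ≤ κ * (1 / (2 * (κ + 1)) * L) := by gcongr
      have h6 : (κ : ℝ) * (1 / (2 * (κ + 1)) * L) ≤ L / 2 := by
        rw [show (κ : ℝ) * (1 / (2 * (κ + 1)) * L) = (κ / (κ + 1)) * (L / 2) by
          field_simp]
        have h7 : (κ : ℝ) / (κ + 1) ≤ 1 := by
          rw [div_le_one (by positivity)]
          linarith
        nlinarith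
      linarith
    linarith
  have h3 : Filter.Tendsto (fun N : ℕ => (N : ℝ) ^ (θ / 2)) Filter.atTop Filter.atTop :=
    (tendsto_rpow_atTop (by linarith)).comp hcast
  have h4 : Filter.Tendsto (fun N : ℕ => (N : ℝ) ^ θ) Filter.atTop Filter.atTop :=
    (tendsto_rpow_atTop hθ).comp hcast
  have h5 : ∀ᶠ t : ℝ in Filter.atTop, Real.log t ^ K ≤ t ^ (θ / 2) := by
    have h6 := (isLittleO_log_rpow_rpow_atTop (s := θ / 2) (K : ℝ) (by linarith)).bound
      (c := 1) one_pos
    filter_upwards [h6, Filter.eventually_ge_atTop (1 : ℝ)] with t ht1 ht2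
    have h7 := Real.log_nonneg ht2
    rw [Real.rpow_natCast, one_mul, Real.norm_eq_abs, Real.norm_eq_abs,
      abs_of_nonneg (by positivity), abs_of_nonneg (by positivity)] at ht1
    exact ht1
  obtain ⟨N₀, h⟩ := Filter.eventually_atTop.1
    ((h1.eventually (Filter.eventually_ge_atTop V)).and ((h1.eventually h2).and
      ((h3.eventually (Filter.eventually_ge_atTop V)).and
        ((h4.eventually (Filter.eventually_ge_atTop V)).and (hcast.eventually h5)))))
  exact ⟨N₀, fun N hN => h N hN⟩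

/-- Let `0 < θ ≤ 1`. There is a `c > 0` such that the following holds for all `B`, `C`, `U`, `κ` and
`0 < ε ≤ 1 / 2`.

* For every `p` there is a `K` such that for all `N ≥ K`: let `s 1, ..., s x` be an arbitrary family of integers in
  `[-B N, B N]` with an additive energy of order `p` of at most `log ^ C N` times the minimal possible size
  `x ^ (2 p) / N`, and let `r ≤ κ log log N`. Then all the tuples `(v 1, ..., v r)` of elements of `{1, ..., x}`
  with `0 < s (v i) ≤ N`, with at most `x ^ r / log ^ U N` exceptions, are such that the law of large numbers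
  (`Law`) holds for the numbers of the primes in the intervals `(a + s (v i), a + s (v i) + y]`, `i ≤ r`.
* In particular this holds for the members `c₀ + f m`, `m ≤ x`, where `f` is a fixed nonconstant polynomial with
  integer coefficients, of degree `d`, `N / log ^ C N ≤ x ^ d ≤ B N` and `|c₀| ≤ B N`. -/
theorem result (θ : ℝ) (hθ : 0 < θ) (hθ1 : θ ≤ 1) : ∃ c : ℝ, 0 < c ∧ ∀ (B C U κ : ℕ) (ε : ℝ), 0 < ε → ε ≤ 1 / 2 →
    (∀ p : ℕ, ∃ K : ℕ, ∀ N : ℕ, K ≤ N → ∀ (x : ℕ) (s : ℕ → ℤ), (∀ m ∈ Icc 1 x, |s m| ≤ B * N) →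
      (energy p x s : ℝ) * N ≤ Real.log N ^ C * (x : ℝ) ^ (2 * p) →
      ∀ r : ℕ, (r : ℝ) ≤ κ * Real.log (Real.log N) →
        tuples x r (fun v => (∀ i, 0 < s (v i) ∧ s (v i) ≤ N) ∧
          ¬ Law c θ ε C N r (fun i => (s (v i)).toNat)) ≤ x ^ r / Real.log N ^ U) ∧
    (∀ f : Polynomial ℤ, 1 ≤ f.natDegree → ∃ K : ℕ, ∀ N : ℕ, K ≤ N → ∀ x : ℕ,
      x ^ f.natDegree ≤ B * N → (N : ℝ) ≤ Real.log N ^ C * (x : ℝ) ^ f.natDegree → ∀ c₀ : ℤ, |c₀| ≤ B * N →
      ∀ r : ℕ, (r : ℝ) ≤ κ * Real.log (Real.log N) →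
        tuples x r (fun v => (∀ i, 0 < c₀ + f.eval (v i : ℤ) ∧ c₀ + f.eval (v i : ℤ) ≤ N) ∧
          ¬ Law c θ ε C N r (fun i => (c₀ + f.eval (v i : ℤ)).toNat)) ≤ x ^ r / Real.log N ^ U) := by
  obtain ⟨CB, hCB, hBT⟩ := primesIn_le
  refine ⟨1 / (25 * (2 * CB / θ) ^ 2), by positivity, fun B C U κ ε hε hε1 => ?_⟩
  have hres := ThinTranslates.result B (C + 2 * κ + 6) (U + (C + 2 * κ + 6) + 4) (ε / 5) (by positivity)
    (by linarith)
  obtain ⟨V, hV⟩ : ∃ V : ℝ, V = 8 + (10 / ε + 4) + 6 * (2 * CB / θ) := ⟨_, rfl⟩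
  have hV1 : 8 ≤ V := by
    rw [hV]
    have : 0 < 10 / ε + 4 := by positivity
    have : 0 < 6 * (2 * CB / θ) := by positivity
    linarith
  have hV2 : 10 / ε + 4 ≤ V := by
    rw [hV]
    have : 0 < 6 * (2 * CB / θ) := by positivity
    linarith
  have hV3 : 6 * (2 * CB / θ) ≤ V := by
    rw [hV]
    have : 0 < 10 / ε + 4 := by positivity
    linarith
  have hV4 : 5 / ε ≤ V := by
    have h1 : 5 / ε ≤ 10 / ε := by gcongr; norm_num
    linarith
  refine ⟨fun p => ?_, fun f hd => ?_⟩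
  · obtain ⟨K, hK⟩ := hres.1 p
    obtain ⟨N₁, hN₁⟩ := ev_large κ K θ V hθ
    refine ⟨K + N₁, fun N hN x s hs hE r hr => ?_⟩
    obtain ⟨h1, h2, h3, h4, h5⟩ := hN₁ N (by omega)
    have hE' : (energy p x s : ℝ) * N ≤ Real.log N ^ (C + 2 * κ + 6) * (x : ℝ) ^ (2 * p) := by
      refine hE.trans ?_
      have : Real.log N ^ C ≤ Real.log N ^ (C + 2 * κ + 6) :=
        pow_le_pow_right₀ (by linarith) (by omega)
      gcongr
    exact core C U κ K N x θ ε CB hθ hθ1 hε hε1 hCB hBT s (hV1.trans h1) h2 (hV2.trans h1)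
      (hV3.trans h1) (by linarith) (hV4.trans h4) h5
      (fun A hA hAN => hK N (by omega) x s hs hE' A hA hAN) r hr
  · obtain ⟨K, hK⟩ := hres.2 f hd
    obtain ⟨N₁, hN₁⟩ := ev_large κ K θ V hθ
    refine ⟨K + N₁, fun N hN x hx1 hx2 c hc r hr => ?_⟩
    obtain ⟨h1, h2, h3, h4, h5⟩ := hN₁ N (by omega)
    have hx2' : (N : ℝ) ≤ Real.log N ^ (C + 2 * κ + 6) * (x : ℝ) ^ f.natDegree := by
      refine hx2.trans ?_
      have : Real.log N ^ C ≤ Real.log N ^ (C + 2 * κ + 6) :=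
        pow_le_pow_right₀ (by linarith) (by omega)
      gcongr
    exact core C U κ K N x θ ε CB hθ hθ1 hε hε1 hCB hBT (fun m => c + f.eval (m : ℤ)) (hV1.trans h1) h2
      (hV2.trans h1) (hV3.trans h1) (by linarith) (hV4.trans h4) h5
      (fun A hA hAN => hK N (by omega) x hx1 hx2' c hc A hA hAN) r hr

end Pool.Agent.Results.MP_31d0eb_nt.SampledAsymptotic
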